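import Mathlib
import Pool.Agent.helper37.CfDefs
import Pool.Agent.helper37.CfRun
import Pool.Agent.helper37.CfDiv

/-!
There is a set `E ⊆ ℂ` whose set of values of finite type-A continued fractions is bounded, but
which is not a type-A convergence set.  So the equivalence
`E is a type-A convergence set ↔ V_A(E) is bounded` fails.
-/

namespace Pool.Agent.Results.MP_e522d8_an.TypeACounterexample

open Pool.Agent.helper37.CF

theorem result : ∃ E : Set ℂ, BoundedValuesA E ∧ ¬ ConvergenceSetA E :=
  ⟨EE, boundedValues, not_convergenceSet⟩

end Pool.Agent.Results.MP_e522d8_an.TypeACounterexample
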