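import Mathlib
import Pool.Agent.helper40.InfWord
import Pool.Agent.helper40.CFDefs
import Pool.Agent.helper40.TypeBInvariant
import Pool.Agent.helper40.TypeBDiverge

/-!
The set `E = {2i, -2i, 1/3 + i, 1/3 - i, 1/3 + i/3, -6}` has a bounded set of values of finite
type-B continued fractions, but it is not a type-B convergence set.  So the equivalence
`E is a type-B convergence set ↔ V_B(E) is bounded` fails.
-/

namespace Pool.Agent.Results.MP_e522d8_an.TypeBCounterexample

open Complex Pool.Agent.helper40

theorem result :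
    BoundedValuesB ({2 * I, -2 * I, 1 / 3 + I, 1 / 3 - I, 1 / 3 + I / 3, -6} : Set ℂ) ∧
      ¬ ConvergenceSetB ({2 * I, -2 * I, 1 / 3 + I, 1 / 3 - I, 1 / 3 + I / 3, -6} : Set ℂ) :=
  ⟨boundedValuesB_setB, not_convergenceSetB_setB⟩

end Pool.Agent.Results.MP_e522d8_an.TypeBCounterexample
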